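import Mathlib

set_option autoImplicit false
set_option linter.unusedSectionVars false

open MeasureTheory Topology Set Filter
open scoped ENNReal NNReal

namespace Pool.Agent.H59.Sick

universe v w

/-! ## Definitions used in the statement -/

/-- The set `K_u(E)` of the problem: all maps `φ : E → [0,∞]` with `φ u = 1` that on positive
elements preserve sums and binary infima, and satisfy `φ (r z) = |r| φ |z|` (with `0 * ∞ = 0`). It
carries the topology of pointwise convergence (subspace topology of the product `E → [0,∞]`). -/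
def Ku (E : Type v) [NormedAddCommGroup E] [NormedSpace ℝ E] [Lattice E] (u : E) :
    Set (E → ℝ≥0∞) :=
  {φ | φ u = 1 ∧
    (∀ x y : E, 0 ≤ x → 0 ≤ y → φ (x + y) = φ x + φ y) ∧
    (∀ x y : E, 0 ≤ x → 0 ≤ y → φ (x ⊓ y) = φ x ⊓ φ y) ∧
    (∀ (r : ℝ) (z : E), φ (r • z) = ENNReal.ofReal |r| * φ |z|)}

/-- A space is sick if it is homeomorphic to `K_u(E)` for some separable Banach lattice `E`
and some nonzero `u ≥ 0` in `E`. -/
def IsSick (K : Type w) [TopologicalSpace K] : Prop :=
  ∃ (E : Type v) (_ : NormedAddCommGroup E) (_ : NormedSpace ℝ E) (_ : Lattice E)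
    (_ : IsOrderedAddMonoid E) (_ : IsOrderedModule ℝ E) (_ : HasSolidNorm E)
    (_ : CompleteSpace E) (_ : TopologicalSpace.SeparableSpace E) (u : E),
    0 ≤ u ∧ u ≠ 0 ∧ Nonempty (K ≃ₜ Ku E u)

/-- `P(K)`: the regular Borel probability measures on `K`. -/
def PK (K : Type w) [TopologicalSpace K] [MeasurableSpace K] : Type w :=
  {μ : Measure K // IsProbabilityMeasure μ ∧ μ.Regular}

/-- The weak* topology on `P(K)`: the one induced by the maps `μ ↦ ∫ f dμ`, `f ∈ C(K)`. -/
noncomputable instance PK.instTopologicalSpace (K : Type w) [TopologicalSpace K]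
    [MeasurableSpace K] : TopologicalSpace (PK K) :=
  TopologicalSpace.induced (fun (μ : PK K) (f : C(K, ℝ)) => ∫ x, f x ∂μ.1) inferInstance

/-- A measure `μ` on a compact space is analytic if `L₁(μ)` is separable and the natural image of
`C(K)` in `L₁(μ)` (the classes containing a continuous function) is an analytic set. -/
def IsAnalyticMeasure {K : Type w} [TopologicalSpace K] [MeasurableSpace K] (μ : Measure K) :
    Prop :=
  TopologicalSpace.SeparableSpace (Lp ℝ 1 μ) ∧
    AnalyticSet {F : Lp ℝ 1 μ | ∃ f : C(K, ℝ), (F : K → ℝ) =ᵐ[μ] f}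

end Pool.Agent.H59.Sick
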