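import Pool.Agent.H59.SickDefs

set_option autoImplicit false
set_option linter.unusedSectionVars false

open MeasureTheory Topology Set Filter
open scoped ENNReal NNReal

namespace Pool.Agent.H59.Sick

universe v w

/-! ## Vector lattice preliminaries -/

section Lattice

variable {E : Type v} [NormedAddCommGroup E] [NormedSpace ℝ E] [Lattice E]
  [IsOrderedAddMonoid E] [IsOrderedModule ℝ E]

lemma smul_inf' {t : ℝ} (ht : 0 ≤ t) (x y : E) : t • (x ⊓ y) = (t • x) ⊓ (t • y) := by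
  rcases ht.eq_or_lt with rfl | ht
  · simp
  · exact (OrderIso.smulRight ht : E ≃o E).map_inf x y

lemma smul_sup' {t : ℝ} (ht : 0 ≤ t) (x y : E) : t • (x ⊔ y) = (t • x) ⊔ (t • y) := by
  rcases ht.eq_or_lt with rfl | ht
  · simp
  · exact (OrderIso.smulRight ht : E ≃o E).map_sup x y

lemma smul_posPart' {t : ℝ} (ht : 0 ≤ t) (x : E) : (t • x)⁺ = t • x⁺ := by
  rw [posPart_def, posPart_def, smul_sup' ht, smul_zero]

lemma abs_smul' (t : ℝ) (x : E) : |t • x| = |t| • |x| := by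
  rcases le_total 0 t with ht | ht
  · rw [abs_of_nonneg ht, abs, abs, smul_sup' ht, smul_neg]
  · rw [abs_of_nonpos ht, abs, abs, smul_sup' (by linarith), smul_neg, neg_smul, neg_neg, sup_comm]

/-- order ideals not containing `u` -/
structure OI (u : E) (M : Set E) : Prop where
  zero : (0:E) ∈ M
  add : ∀ x ∈ M, ∀ y ∈ M, x + y ∈ M
  solid : ∀ x y, |x| ≤ |y| → y ∈ M → x ∈ M
  nu : u ∉ M

lemma OI.nsmul {u : E} {M : Set E} (h : OI u M) (k : ℕ) {x : E} (hx : x ∈ M) : k • x ∈ M := by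
  induction k with
  | zero => simpa using h.zero
  | succ k ih => rw [succ_nsmul]; exact h.add _ ih _ hx

lemma OI.of_le {u : E} {M : Set E} (h : OI u M) {x y : E} (hx : 0 ≤ x) (hxy : x ≤ y)
    (hy : y ∈ M) : x ∈ M := by
  apply h.solid x y _ hy
  rw [abs_of_nonneg hx, abs_of_nonneg (hx.trans hxy)]
  exact hxy

lemma OI.abs_mem {u : E} {M : Set E} (h : OI u M) {x : E} (hx : x ∈ M) : |x| ∈ M :=
  h.solid |x| x (by rw [abs_abs]) hx

lemma OI.smul {u : E} {M : Set E} (h : OI u M) (t : ℝ) {x : E} (hx : x ∈ M) : t • x ∈ M := by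
  obtain ⟨k, hk⟩ := exists_nat_ge |t|
  apply h.solid (t • x) (k • |x|) _ (h.nsmul k (h.abs_mem hx))
  have h1 : (0:E) ≤ k • |x| := nsmul_nonneg (abs_nonneg x) k
  rw [abs_of_nonneg h1, abs_smul', ← Nat.cast_smul_eq_nsmul ℝ]
  exact smul_le_smul_of_nonneg_right hk (abs_nonneg x)

/-- every order ideal missing `u` lies in a maximal one -/
lemma exists_maxOI {u : E} {M₀ : Set E} (h₀ : OI u M₀) :
    ∃ M, M₀ ⊆ M ∧ OI u M ∧ ∀ M', OI u M' → M ⊆ M' → M' ⊆ M := by
  obtain ⟨M, hM, hmax⟩ := zorn_subset_nonempty {M | OI u M} (by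
    intro c hc hchain hne
    refine ⟨⋃₀ c, ?_, fun s hs => subset_sUnion_of_mem hs⟩
    obtain ⟨s₀, hs₀⟩ := hne
    refine ⟨mem_sUnion_of_mem (hc hs₀).zero hs₀, ?_, ?_, ?_⟩
    · rintro x ⟨s, hs, hx⟩ y ⟨t, ht, hy⟩
      rcases hchain.total hs ht with h | h
      · exact mem_sUnion_of_mem ((hc ht).add x (h hx) y hy) ht
      · exact mem_sUnion_of_mem ((hc hs).add x hx y (h hy)) hs
    · rintro x y hxy ⟨s, hs, hy⟩
      exact mem_sUnion_of_mem ((hc hs).solid x y hxy hy) hs
    · rintro ⟨s, hs, hu⟩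
      exact (hc hs).nu hu) M₀ h₀
  exact ⟨M, hM, hmax.1, fun M' h' hsub => hmax.2 h' hsub⟩

lemma prime_of_max {u : E} (hu : 0 ≤ u) {M : Set E} (hM : OI u M)
    (hmax : ∀ M', OI u M' → M ⊆ M' → M' ⊆ M) {a b : E} (ha : 0 ≤ a) (hb : 0 ≤ b)
    (hab : a ⊓ b ∈ M) : a ∈ M ∨ b ∈ M := by
  have key : ∀ a : E, 0 ≤ a → a ∉ M → ∃ m ∈ M, 0 ≤ m ∧ ∃ k : ℕ, u ≤ m + k • a := by
    intro a ha haM
    by_contra hcon
    push Not at hcon
    have hOI : OI u {x : E | ∃ m ∈ M, 0 ≤ m ∧ ∃ k : ℕ, |x| ≤ m + k • a} := by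
      refine ⟨⟨0, hM.zero, le_rfl, 0, by simp⟩, ?_, ?_, ?_⟩
      · rintro x ⟨m, hm, hm0, k, hk⟩ y ⟨m', hm', hm0', k', hk'⟩
        refine ⟨m + m', hM.add _ hm _ hm', add_nonneg hm0 hm0', k + k', ?_⟩
        calc |x + y| ≤ |x| + |y| := abs_add_le x y
          _ ≤ (m + k • a) + (m' + k' • a) := add_le_add hk hk'
          _ = _ := by rw [add_nsmul]; abel
      · rintro x y hxy ⟨m, hm, hm0, k, hk⟩
        exact ⟨m, hm, hm0, k, hxy.trans hk⟩
      · rintro ⟨m, hm, hm0, k, hk⟩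
        rw [abs_of_nonneg hu] at hk
        exact hcon m hm hm0 k hk
    have hsub := hmax _ hOI (fun x hx => ⟨|x|, hM.abs_mem hx, abs_nonneg x, 0, by simp⟩)
    exact haM (hsub ⟨0, hM.zero, le_rfl, 1, by simp [abs_of_nonneg ha]⟩)
  by_contra hcon
  push Not at hcon
  obtain ⟨m, hm, hm0, k, hk⟩ := key a ha hcon.1
  obtain ⟨m', hm', hm0', k', hk'⟩ := key b hb hcon.2
  have h1 : u ≤ (m + m') + (k + k') • a := by
    refine hk.trans ?_
    rw [add_nsmul]
    have e : m + m' + (k • a + k' • a) = (m + k • a) + (m' + k' • a) := by abel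
    rw [e]
    exact le_add_of_nonneg_right (add_nonneg hm0' (nsmul_nonneg ha k'))
  have h2 : u ≤ (m + m') + (k + k') • b := by
    refine hk'.trans ?_
    rw [add_nsmul]
    have e : m + m' + (k • b + k' • b) = (m' + k' • b) + (m + k • b) := by abel
    rw [e]
    exact le_add_of_nonneg_right (add_nonneg hm0 (nsmul_nonneg hb k))
  have h3 : u ≤ (m + m') + ((k + k' : ℕ) : ℝ) • (a ⊓ b) := by
    rw [smul_inf' (Nat.cast_nonneg _), add_inf, Nat.cast_smul_eq_nsmul, Nat.cast_smul_eq_nsmul]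
    exact le_inf h1 h2
  exact hM.nu (hM.of_le hu h3 (hM.add _ (hM.add _ hm _ hm') _ (hM.smul _ hab)))

/-- the `[0,∞]`-valued functional attached to an ideal -/
noncomputable def phi (u : E) (M : Set E) (x : E) : ℝ≥0∞ :=
  ⨅ (t : ℝ≥0) (_ : (|x| - (t:ℝ) • u)⁺ ∈ M), (t : ℝ≥0∞)

lemma phi_le {u : E} {M : Set E} {x : E} {t : ℝ≥0} (h : (|x| - (t:ℝ) • u)⁺ ∈ M) :
    phi u M x ≤ t := iInf₂_le t h

lemma not_mem_of_lt {u : E} {M : Set E} {x : E} {t : ℝ≥0} (h : (t : ℝ≥0∞) < phi u M x) :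
    (|x| - (t:ℝ) • u)⁺ ∉ M := fun h' => absurd (phi_le h') (not_le.mpr h)

lemma phi_mono {u : E} {M : Set E} (hM : OI u M) {x y : E} (hxy : |x| ≤ |y|) :
    phi u M x ≤ phi u M y := by
  refine le_iInf₂ fun t ht => phi_le ?_
  exact hM.of_le (posPart_nonneg _) (posPart_mono (sub_le_sub_right hxy _)) ht

lemma phi_zero {u : E} {M : Set E} (hM : OI u M) : phi u M 0 = 0 := by
  have : phi u M 0 ≤ ((0:ℝ≥0) : ℝ≥0∞) := phi_le (by simpa using hM.zero)
  simpa using this

lemma phi_mem_Ku {u : E} (hu : 0 ≤ u) {M : Set E} (hM : OI u M)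
    (hmax : ∀ M', OI u M' → M ⊆ M' → M' ⊆ M) : phi u M ∈ Ku E u := by
  have hprime := fun {a b : E} (ha : 0 ≤ a) (hb : 0 ≤ b) (hab : a ⊓ b ∈ M) =>
    prime_of_max hu hM hmax ha hb hab
  -- negative part membership
  have hneg : ∀ x : E, ∀ t : ℝ≥0, (t : ℝ≥0∞) < phi u M x → (|x| - (t:ℝ) • u)⁻ ∈ M := by
    intro x t ht
    rcases hprime (posPart_nonneg (|x| - (t:ℝ) • u)) (negPart_nonneg _)
      (by rw [posPart_inf_negPart_eq_zero]; exact hM.zero) with h | h
    · exact absurd h (not_mem_of_lt ht)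
    · exact h
  refine ⟨?_, ?_, ?_, ?_⟩
  · apply le_antisymm
    · have : phi u M u ≤ ((1:ℝ≥0) : ℝ≥0∞) := phi_le (by
        rw [abs_of_nonneg hu]
        simpa using hM.zero)
      simpa using this
    · refine le_iInf₂ fun t ht => ?_
      by_contra hlt
      push Not at hlt
      have hlt' : (t:ℝ) < 1 := by exact_mod_cast hlt
      rw [abs_of_nonneg hu] at ht
      have e : u - (t:ℝ) • u = (1 - (t:ℝ)) • u := by rw [sub_smul, one_smul]
      rw [e, posPart_eq_self.mpr (smul_nonneg (by linarith) hu)] at ht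
      have := hM.smul (1 - (t:ℝ))⁻¹ ht
      rw [smul_smul, inv_mul_cancel₀ (by linarith), one_smul] at this
      exact hM.nu this
  · intro x y hx hy
    apply le_antisymm
    · -- φ(x+y) ≤ φ x + φ y
      have hgoal : ∀ s t : ℝ≥0, (|x| - (s:ℝ) • u)⁺ ∈ M → (|y| - (t:ℝ) • u)⁺ ∈ M →
          phi u M (x + y) ≤ s + t := by
        intro s t hs ht
        have : phi u M (x + y) ≤ ((s + t : ℝ≥0) : ℝ≥0∞) := by
          apply phi_le
          rw [abs_of_nonneg (add_nonneg hx hy)]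
          rw [abs_of_nonneg hx] at hs
          rw [abs_of_nonneg hy] at ht
          apply hM.of_le (posPart_nonneg _) _ (hM.add _ hs _ ht)
          rw [posPart_def]
          apply sup_le
          · have e : x + y - ((s + t : ℝ≥0) : ℝ) • u = (x - (s:ℝ) • u) + (y - (t:ℝ) • u) := by
              push_cast; rw [add_smul]; abel
            rw [e]
            exact add_le_add (le_posPart _) (le_posPart _)
          · exact add_nonneg (posPart_nonneg _) (posPart_nonneg _)
        simpa using this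
      unfold phi at *
      simp_rw [ENNReal.iInf_add, ENNReal.add_iInf]
      exact le_iInf₂ fun s hs => le_iInf₂ fun t ht => hgoal s t hs ht
    · -- φ x + φ y ≤ φ (x+y)
      refine le_iInf₂ fun r hr => ?_
      rw [abs_of_nonneg (add_nonneg hx hy)] at hr
      have hkey : ∀ s t : ℝ≥0, (x - (s:ℝ) • u)⁻ ∈ M → (y - (t:ℝ) • u)⁻ ∈ M → s + t ≤ r := by
        intro s t hs ht
        by_contra hlt
        push Not at hlt
        have hlt' : (r:ℝ) < s + t := by exact_mod_cast hlt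
        have hle : ((s:ℝ) + t - r) • u ≤ (x + y - (r:ℝ) • u)⁺ + (x - (s:ℝ) • u)⁻ + (y - (t:ℝ) • u)⁻ := by
          have e : ((s:ℝ) + t - r) • u = (x + y - (r:ℝ) • u) + -(x - (s:ℝ) • u) + -(y - (t:ℝ) • u) := by
            rw [sub_smul, add_smul]; abel
          rw [e]
          exact add_le_add (add_le_add (le_posPart _) (neg_le_negPart _)) (neg_le_negPart _)
        have hmem := hM.of_le (smul_nonneg (by linarith) hu) hle (hM.add _ (hM.add _ hr _ hs) _ ht)
        have := hM.smul ((s:ℝ) + t - r)⁻¹ hmem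
        rw [smul_smul, inv_mul_cancel₀ (by linarith), one_smul] at this
        exact hM.nu this
      have hx0 : (x - ((0:ℝ≥0):ℝ) • u)⁻ ∈ M := by
        simp only [NNReal.coe_zero, zero_smul, sub_zero]
        rw [negPart_eq_zero.mpr hx]; exact hM.zero
      have hy0 : (y - ((0:ℝ≥0):ℝ) • u)⁻ ∈ M := by
        simp only [NNReal.coe_zero, zero_smul, sub_zero]
        rw [negPart_eq_zero.mpr hy]; exact hM.zero
      have hxs : ∀ s : ℝ≥0, (s:ℝ≥0∞) < phi u M x → (x - (s:ℝ) • u)⁻ ∈ M := by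
        intro s hs
        have := hneg x s hs
        rwa [abs_of_nonneg hx] at this
      have hys : ∀ s : ℝ≥0, (s:ℝ≥0∞) < phi u M y → (y - (s:ℝ) • u)⁻ ∈ M := by
        intro s hs
        have := hneg y s hs
        rwa [abs_of_nonneg hy] at this
      have hb1 : ∀ t : ℝ≥0, (y - (t:ℝ) • u)⁻ ∈ M → phi u M x + t ≤ r := by
        intro t ht
        have h0 := hkey 0 t hx0 ht
        rw [zero_add] at h0
        have h1 : phi u M x ≤ ((r - t : ℝ≥0) : ℝ≥0∞) := by
          refine le_of_forall_lt fun c hc => ?_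
          lift c to ℝ≥0 using ne_top_of_lt hc
          obtain ⟨d, hcd, hd⟩ := ENNReal.lt_iff_exists_nnreal_btwn.mp hc
          have h2 := hkey d t (hxs d hd) ht
          have h3 : c < r - t := by
            have hcd' : c < d := by exact_mod_cast hcd
            exact lt_of_lt_of_le hcd' (le_tsub_of_add_le_right h2)
          exact_mod_cast h3
        calc phi u M x + t ≤ ((r - t : ℝ≥0) : ℝ≥0∞) + t := by gcongr
          _ = r := by
            rw [← ENNReal.coe_add, tsub_add_cancel_of_le h0]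
      have hxfin : phi u M x ≤ r := by simpa using hb1 0 hy0
      have hxne : phi u M x ≠ ∞ := ne_top_of_le_ne_top ENNReal.coe_ne_top hxfin
      have h1 : phi u M y ≤ r - phi u M x := by
        refine le_of_forall_lt fun c hc => ?_
        lift c to ℝ≥0 using ne_top_of_lt hc
        obtain ⟨d, hcd, hd⟩ := ENNReal.lt_iff_exists_nnreal_btwn.mp hc
        have h2 := hb1 d (hys d hd)
        exact lt_of_lt_of_le hcd (ENNReal.le_sub_of_add_le_left hxne h2)
      calc phi u M x + phi u M y ≤ phi u M x + (r - phi u M x) := by gcongr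
        _ = r := add_tsub_cancel_of_le hxfin
  · intro x y hx hy
    have hxy : 0 ≤ x ⊓ y := le_inf hx hy
    apply le_antisymm
    · refine le_inf (phi_mono hM ?_) (phi_mono hM ?_)
      · rw [abs_of_nonneg hxy, abs_of_nonneg hx]; exact inf_le_left
      · rw [abs_of_nonneg hxy, abs_of_nonneg hy]; exact inf_le_right
    · refine le_iInf₂ fun t ht => ?_
      rw [abs_of_nonneg hxy] at ht
      have e : (x ⊓ y - (t:ℝ) • u)⁺ = (x - (t:ℝ) • u)⁺ ⊓ (y - (t:ℝ) • u)⁺ := by
        rw [inf_sub]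
        let _ := AddCommGroup.toDistribLattice E
        exact sup_inf_right _ _ _
      rw [e] at ht
      rcases hprime (posPart_nonneg _) (posPart_nonneg _) ht with h | h
      · exact inf_le_of_left_le (phi_le (by rwa [abs_of_nonneg hx]))
      · exact inf_le_of_right_le (phi_le (by rwa [abs_of_nonneg hy]))
  · intro r z
    rcases eq_or_ne r 0 with rfl | hr
    · simp [phi_zero hM]
    · have hr' : 0 < |r| := abs_pos.mpr hr
      have hscale : ∀ t : ℝ, (|r • z| - (|r| * t) • u)⁺ = |r| • (|(|z|)| - t • u)⁺ := by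
        intro t
        rw [← smul_posPart' hr'.le, smul_sub, smul_smul, abs_smul', abs_abs]
      have hc0 : ENNReal.ofReal |r| ≠ 0 := by simpa using hr
      apply le_antisymm
      · have e : ENNReal.ofReal |r| * phi u M |z| =
            ⨅ (t : ℝ≥0) (_ : (|(|z|)| - (t:ℝ) • u)⁺ ∈ M), ENNReal.ofReal |r| * (t : ℝ≥0∞) := by
          unfold phi
          rw [ENNReal.mul_iInf_of_ne hc0 ENNReal.ofReal_ne_top]
          congr 1
          ext t
          rw [ENNReal.mul_iInf_of_ne hc0 ENNReal.ofReal_ne_top]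
        rw [e]
        refine le_iInf₂ fun t ht => ?_
        have h1 : (|r • z| - ((|r|.toNNReal * t : ℝ≥0) : ℝ) • u)⁺ ∈ M := by
          have e1 : ((|r|.toNNReal * t : ℝ≥0) : ℝ) = |r| * t := by
            push_cast; rw [Real.coe_toNNReal _ hr'.le]
          rw [e1, hscale]
          exact hM.smul _ ht
        refine (phi_le h1).trans (le_of_eq ?_)
        push_cast
        rfl
      · refine le_iInf₂ fun s hs => ?_
        have h1 : (|(|z|)| - (((|r|.toNNReal)⁻¹ * s : ℝ≥0) : ℝ) • u)⁺ ∈ M := by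
          have e1 : (((|r|.toNNReal)⁻¹ * s : ℝ≥0) : ℝ) = |r|⁻¹ * s := by
            push_cast; rw [Real.coe_toNNReal _ hr'.le]
          have e2 : (s:ℝ) = |r| * (|r|⁻¹ * s) := by field_simp
          rw [e2, hscale] at hs
          rw [e1]
          have := hM.smul (|r|⁻¹) hs
          rwa [smul_smul, inv_mul_cancel₀ hr'.ne', one_smul] at this
        calc ENNReal.ofReal |r| * phi u M |z| ≤ ENNReal.ofReal |r| * (((|r|.toNNReal)⁻¹ * s : ℝ≥0) : ℝ≥0∞) := by
              gcongr; exact phi_le h1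
          _ = s := by
            have : (ENNReal.ofReal |r|) = ((|r|.toNNReal : ℝ≥0) : ℝ≥0∞) := rfl
            rw [this, ← ENNReal.coe_mul, ← mul_assoc, mul_inv_cancel₀, one_mul]
            exact (Real.toNNReal_pos.mpr hr').ne'

lemma Ku.zero {u : E} {φ : E → ℝ≥0∞} (h : φ ∈ Ku E u) : φ 0 = 0 := by
  have := h.2.2.2 0 0
  simpa using this

lemma Ku.mono {u : E} {φ : E → ℝ≥0∞} (h : φ ∈ Ku E u) {x y : E} (hx : 0 ≤ x) (hxy : x ≤ y) :
    φ x ≤ φ y := by
  have := h.2.1 x (y - x) hx (sub_nonneg.mpr hxy)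
  rw [add_sub_cancel] at this
  rw [this]
  exact le_self_add

lemma Ku.le_nat {u : E} (hu : 0 ≤ u) {φ : E → ℝ≥0∞} (h : φ ∈ Ku E u) {x : E} (hx : 0 ≤ x) {n : ℕ}
    (hxy : x ≤ n • u) : φ x ≤ n := by
  refine (Ku.mono h hx hxy).trans ?_
  rw [← Nat.cast_smul_eq_nsmul ℝ, h.2.2.2, abs_of_nonneg hu, h.1, mul_one,
    abs_of_nonneg (Nat.cast_nonneg _)]
  simp

/-- real valued evaluation -/
noncomputable def J (φ : E → ℝ≥0∞) (y : E) : ℝ := (φ y⁺).toReal - (φ y⁻).toReal

/-- the principal ideal -/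
def Iu (u : E) : Set E := {y | ∃ n : ℕ, |y| ≤ n • u}

lemma Iu.pos {u y : E} (h : y ∈ Iu u) : y⁺ ∈ Iu u := by
  obtain ⟨n, hn⟩ := h
  refine ⟨n, le_trans ?_ hn⟩
  rw [abs_of_nonneg (posPart_nonneg _), ← posPart_add_negPart y]
  exact le_add_of_nonneg_right (negPart_nonneg _)

lemma Iu.neg {u y : E} (h : y ∈ Iu u) : y⁻ ∈ Iu u := by
  obtain ⟨n, hn⟩ := h
  refine ⟨n, le_trans ?_ hn⟩
  rw [abs_of_nonneg (negPart_nonneg _), ← posPart_add_negPart y]
  exact le_add_of_nonneg_left (posPart_nonneg _)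

lemma Iu.add {u y z : E} (h : y ∈ Iu u) (h' : z ∈ Iu u) : y + z ∈ Iu u := by
  obtain ⟨n, hn⟩ := h
  obtain ⟨m, hm⟩ := h'
  refine ⟨n + m, (abs_add_le y z).trans ?_⟩
  rw [add_nsmul]
  exact add_le_add hn hm

lemma Iu.smul {u y : E} (hu : 0 ≤ u) (r : ℝ) (h : y ∈ Iu u) : r • y ∈ Iu u := by
  obtain ⟨n, hn⟩ := h
  obtain ⟨k, hk⟩ := exists_nat_ge |r|
  refine ⟨k * n, ?_⟩
  rw [abs_smul', mul_nsmul', ← Nat.cast_smul_eq_nsmul ℝ k]
  exact (smul_le_smul_of_nonneg_right hk (abs_nonneg y)).trans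
    (smul_le_smul_of_nonneg_left hn (Nat.cast_nonneg _))

lemma Iu.ne_top {u : E} (hu : 0 ≤ u) {φ : E → ℝ≥0∞} (h : φ ∈ Ku E u) {x : E} (hx : 0 ≤ x)
    (hxI : x ∈ Iu u) : φ x ≠ ∞ := by
  obtain ⟨n, hn⟩ := hxI
  rw [abs_of_nonneg hx] at hn
  exact ne_top_of_le_ne_top (ENNReal.natCast_ne_top n) (Ku.le_nat hu h hx hn)

lemma J_sub {u : E} (hu : 0 ≤ u) {φ : E → ℝ≥0∞} (h : φ ∈ Ku E u) {a b : E} (ha : 0 ≤ a)
    (hb : 0 ≤ b) (haI : a ∈ Iu u) (hbI : b ∈ Iu u) :
    J φ (a - b) = (φ a).toReal - (φ b).toReal := by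
  have hI : a - b ∈ Iu u := by
    have := Iu.add haI (Iu.smul hu (-1) hbI)
    rwa [neg_one_smul, ← sub_eq_add_neg] at this
  have h1 : (a - b)⁺ + b = (a - b)⁻ + a := by
    have := posPart_sub_negPart (a - b)
    have h2 : (a - b)⁺ = (a - b) + (a - b)⁻ := by
      nth_rewrite 2 [← this]; abel
    rw [h2]; abel
  have h2 : φ (a - b)⁺ + φ b = φ (a - b)⁻ + φ a := by
    rw [← h.2.1 _ _ (posPart_nonneg _) hb, ← h.2.1 _ _ (negPart_nonneg _) ha, h1]
  have h3 := congrArg ENNReal.toReal h2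
  rw [ENNReal.toReal_add (Iu.ne_top hu h (posPart_nonneg _) (Iu.pos hI)) (Iu.ne_top hu h hb hbI),
    ENNReal.toReal_add (Iu.ne_top hu h (negPart_nonneg _) (Iu.neg hI)) (Iu.ne_top hu h ha haI)] at h3
  unfold J
  linarith

lemma J_add {u : E} (hu : 0 ≤ u) {φ : E → ℝ≥0∞} (h : φ ∈ Ku E u) {y z : E}
    (hy : y ∈ Iu u) (hz : z ∈ Iu u) : J φ (y + z) = J φ y + J φ z := by
  have e : y + z = (y⁺ + z⁺) - (y⁻ + z⁻) := by
    nth_rewrite 1 [← posPart_sub_negPart y]
    nth_rewrite 1 [← posPart_sub_negPart z]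
    abel
  rw [e, J_sub hu h (add_nonneg (posPart_nonneg _) (posPart_nonneg _))
    (add_nonneg (negPart_nonneg _) (negPart_nonneg _)) (Iu.add (Iu.pos hy) (Iu.pos hz))
    (Iu.add (Iu.neg hy) (Iu.neg hz)), h.2.1 _ _ (posPart_nonneg _) (posPart_nonneg _),
    h.2.1 _ _ (negPart_nonneg _) (negPart_nonneg _),
    ENNReal.toReal_add (Iu.ne_top hu h (posPart_nonneg _) (Iu.pos hy))
      (Iu.ne_top hu h (posPart_nonneg _) (Iu.pos hz)),
    ENNReal.toReal_add (Iu.ne_top hu h (negPart_nonneg _) (Iu.neg hy))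
      (Iu.ne_top hu h (negPart_nonneg _) (Iu.neg hz))]
  unfold J
  ring

lemma J_nonneg_eq {u : E} {φ : E → ℝ≥0∞} (h : φ ∈ Ku E u) {a : E} (ha : 0 ≤ a) :
    J φ a = (φ a).toReal := by
  unfold J
  rw [posPart_eq_self.mpr ha, negPart_eq_zero.mpr ha, Ku.zero h]
  simp

lemma J_smul {u : E} (hu : 0 ≤ u) {φ : E → ℝ≥0∞} (h : φ ∈ Ku E u) (r : ℝ) {y : E}
    (hy : y ∈ Iu u) : J φ (r • y) = r * J φ y := by
  have hφ : ∀ (r : ℝ) (x : E), 0 ≤ x → (φ (|r| • x)).toReal = |r| * (φ x).toReal := by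
    intro r x hx
    rw [h.2.2.2, abs_abs, abs_of_nonneg hx, ENNReal.toReal_mul, ENNReal.toReal_ofReal (abs_nonneg r)]
  rcases le_total 0 r with hr | hr
  · have e : r • y = |r| • y⁺ - |r| • y⁻ := by
      rw [← smul_sub, posPart_sub_negPart, abs_of_nonneg hr]
    rw [e, J_sub hu h (smul_nonneg (abs_nonneg _) (posPart_nonneg _))
      (smul_nonneg (abs_nonneg _) (negPart_nonneg _)) (Iu.smul hu _ (Iu.pos hy))
      (Iu.smul hu _ (Iu.neg hy)), hφ r _ (posPart_nonneg _), hφ r _ (negPart_nonneg _),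
      abs_of_nonneg hr]
    unfold J; ring
  · have e : r • y = |r| • y⁻ - |r| • y⁺ := by
      rw [← smul_sub, ← neg_sub, posPart_sub_negPart, abs_of_nonpos hr, smul_neg, neg_smul, neg_neg]
    rw [e, J_sub hu h (smul_nonneg (abs_nonneg _) (negPart_nonneg _))
      (smul_nonneg (abs_nonneg _) (posPart_nonneg _)) (Iu.smul hu _ (Iu.neg hy))
      (Iu.smul hu _ (Iu.pos hy)), hφ r _ (posPart_nonneg _), hφ r _ (negPart_nonneg _),
      abs_of_nonpos hr]
    unfold J; ring

lemma J_abs {u : E} (hu : 0 ≤ u) {φ : E → ℝ≥0∞} (h : φ ∈ Ku E u) {y : E}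
    (hy : y ∈ Iu u) : J φ |y| = |J φ y| := by
  rw [J_nonneg_eq h (abs_nonneg y), ← posPart_add_negPart, h.2.1 _ _ (posPart_nonneg _) (negPart_nonneg _),
    ENNReal.toReal_add (Iu.ne_top hu h (posPart_nonneg _) (Iu.pos hy))
      (Iu.ne_top hu h (negPart_nonneg _) (Iu.neg hy))]
  have h1 : φ y⁺ ⊓ φ y⁻ = 0 := by
    rw [← h.2.2.1 _ _ (posPart_nonneg _) (negPart_nonneg _), posPart_inf_negPart_eq_zero, Ku.zero h]
  unfold J
  rcases le_total (φ y⁺) (φ y⁻) with hle | hle
  · rw [inf_eq_left.mpr hle] at h1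
    rw [h1]
    simp
  · rw [inf_eq_right.mpr hle] at h1
    rw [h1]
    simp

end Lattice

section Kakutani

variable {E : Type v} [NormedAddCommGroup E] [NormedSpace ℝ E] [Lattice E]
  [IsOrderedAddMonoid E] [IsOrderedModule ℝ E] [HasSolidNorm E]

lemma exists_pos_of_not_le {u : E} (hu : 0 ≤ u) {v : E} (hv : ¬ v ≤ 0) (hvI : v ∈ Iu u) :
    ∃ φ ∈ Ku E u, 0 < J φ v := by
  obtain ⟨n, hn⟩ := hvI
  have hvn : v ≤ n • u := (le_abs_self v).trans hn
  have harch : ∃ ε : ℝ, 0 < ε ∧ ¬ v ≤ ε • u := by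
    by_contra hcon
    push Not at hcon
    apply hv
    have h1 : Tendsto (fun ε : ℝ => ε • u) (𝓝[>] 0) (𝓝 ((0:ℝ) • u)) := by
      apply Tendsto.smul_const
      exact nhdsWithin_le_nhds
    rw [zero_smul] at h1
    refine ge_of_tendsto h1 ?_
    filter_upwards [self_mem_nhdsWithin] with ε hε using hcon ε hε
  obtain ⟨ε, hε, hvε⟩ := harch
  set z := (v - ε • u)⁺ with hz
  have hz0 : 0 ≤ z := posPart_nonneg _
  have hzne : z ≠ 0 := by
    intro h
    rw [hz, posPart_eq_zero] at h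
    exact hvε (sub_nonpos.mp h)
  have hOI : OI u {x : E | |x| ⊓ z = 0} := by
    refine ⟨by simp [hz0], ?_, ?_, ?_⟩
    · intro x hx y hy
      have hx' : |x| ⊓ z = 0 := hx
      have hy' : |y| ⊓ z = 0 := hy
      change |x + y| ⊓ z = 0
      apply le_antisymm _ (le_inf (abs_nonneg _) hz0)
      have h1 : |x + y| ⊓ z ≤ (|x| + |y|) ⊓ z := inf_le_inf_right _ (abs_add_le x y)
      refine h1.trans ?_
      -- (a+b) ∧ z ≤ a ∧ z + b ∧ z
      have h2 : (|x| + |y|) ⊓ z ≤ |x| ⊓ z + |y| ⊓ z := by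
        rw [inf_add, add_inf, add_inf]
        refine le_inf (le_inf inf_le_left ?_) (le_inf ?_ ?_)
        · exact inf_le_right.trans (le_add_of_nonneg_left (abs_nonneg _))
        · exact inf_le_right.trans (le_add_of_nonneg_right (abs_nonneg _))
        · exact inf_le_right.trans (le_add_of_nonneg_right hz0)
      rw [hx', hy', add_zero] at h2
      exact h2
    · intro x y hxy hy
      have hy' : |y| ⊓ z = 0 := hy
      change |x| ⊓ z = 0
      apply le_antisymm _ (le_inf (abs_nonneg _) hz0)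
      rw [← hy']
      exact inf_le_inf_right _ hxy
    · intro h
      have h' : |u| ⊓ z = 0 := h
      rw [abs_of_nonneg hu] at h'
      have hzn : z ≤ n • u := by
        rw [hz, posPart_def]
        apply sup_le _ (nsmul_nonneg hu n)
        exact (sub_le_self _ (smul_nonneg hε.le hu)).trans hvn
      -- n•u ⊓ z ≤ n • (u ⊓ z) = 0
      have h3 : ∀ n : ℕ, (n • u) ⊓ z ≤ n • (u ⊓ z) := by
        intro n
        induction n with
        | zero => simp
        | succ n ih =>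
          rw [succ_nsmul, succ_nsmul]
          refine le_trans ?_ (add_le_add ih le_rfl)
          rw [inf_add, add_inf, add_inf]
          refine le_inf (le_inf inf_le_left ?_) (le_inf ?_ ?_)
          · exact inf_le_right.trans (le_add_of_nonneg_left (nsmul_nonneg hu n))
          · exact inf_le_right.trans (le_add_of_nonneg_right hu)
          · exact inf_le_right.trans (le_add_of_nonneg_right hz0)
      have h4 := h3 n
      rw [inf_eq_right.mpr hzn, h', nsmul_zero] at h4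
      exact hzne (le_antisymm h4 hz0)
  obtain ⟨M, hsub, hM, hmax⟩ := exists_maxOI hOI
  have hφ := phi_mem_Ku hu hM hmax
  refine ⟨phi u M, hφ, ?_⟩
  have hmem : (ε • u - v)⁺ ∈ M := by
    apply hsub
    change |(ε • u - v)⁺| ⊓ z = 0
    rw [abs_of_nonneg (posPart_nonneg _)]
    have : (ε • u - v)⁺ = (v - ε • u)⁻ := by
      rw [← posPart_neg, neg_sub]
    rw [this, hz, inf_comm]
    exact posPart_inf_negPart_eq_zero _
  have h1 : phi u M v⁻ = 0 := by
    have : phi u M v⁻ ≤ ((0:ℝ≥0):ℝ≥0∞) := by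
      apply phi_le
      simp only [NNReal.coe_zero, zero_smul, sub_zero]
      rw [abs_of_nonneg (negPart_nonneg _), posPart_eq_self.mpr (negPart_nonneg _)]
      apply hM.of_le (negPart_nonneg _) _ hmem
      rw [negPart_def, posPart_def]
      apply sup_le_sup_right
      rw [sub_eq_add_neg]
      exact le_add_of_nonneg_left (smul_nonneg hε.le hu)
    simpa using this
  have h2 : ENNReal.ofReal ε ≤ phi u M v⁺ := by
    refine le_iInf₂ fun t ht => ?_
    rw [abs_of_nonneg (posPart_nonneg _)] at ht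
    by_contra hlt
    push Not at hlt
    have hlt' : (t:ℝ) < ε := by
      rwa [← ENNReal.ofReal_coe_nnreal, ENNReal.ofReal_lt_ofReal_iff hε] at hlt
    have hle : (ε - t) • u ≤ (ε • u - v)⁺ + (v⁺ - (t:ℝ) • u)⁺ := by
      have e : (ε - t) • u = (ε • u - v) + (v - (t:ℝ) • u) := by rw [sub_smul]; abel
      rw [e]
      refine add_le_add (le_posPart _) (le_trans ?_ (le_posPart _))
      exact sub_le_sub_right (le_posPart _) _
    have hmem2 := hM.of_le (smul_nonneg (by linarith) hu) hle (hM.add _ hmem _ ht)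
    have := hM.smul (ε - t)⁻¹ hmem2
    rw [smul_smul, inv_mul_cancel₀ (by linarith), one_smul] at this
    exact hM.nu this
  unfold J
  rw [h1]
  simp only [ENNReal.toReal_zero, sub_zero]
  apply ENNReal.toReal_pos
  · intro h0
    rw [h0] at h2
    simp at h2
    linarith
  · exact Iu.ne_top hu hφ (posPart_nonneg _) (Iu.pos ⟨n, hn⟩)

variable {K : Type w} [TopologicalSpace K]

lemma continuous_J {u : E} (hu : 0 ≤ u) (h : K → E → ℝ≥0∞) (hc : Continuous h)
    (hm : ∀ x, h x ∈ Ku E u) {y : E} (hy : y ∈ Iu u) : Continuous fun x => J (h x) y := by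
  have key : ∀ a : E, 0 ≤ a → a ∈ Iu u → Continuous fun x => (h x a).toReal := by
    intro a ha haI
    have h1 : Continuous fun x => h x a := (continuous_apply a).comp hc
    exact ENNReal.continuousOn_toReal.comp_continuous h1 (fun x => Iu.ne_top hu (hm x) ha haI)
  exact (key _ (posPart_nonneg _) (Iu.pos hy)).sub (key _ (negPart_nonneg _) (Iu.neg hy))

lemma J_one {u : E} (hu : 0 ≤ u) {φ : E → ℝ≥0∞} (h : φ ∈ Ku E u) : J φ u = 1 := by
  rw [J_nonneg_eq h hu, h.1]; simp

lemma Iu.u_mem {u : E} (hu : 0 ≤ u) : u ∈ Iu u := ⟨1, by rw [abs_of_nonneg hu, one_nsmul]⟩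

lemma Iu.abs {u y : E} (h : y ∈ Iu u) : |y| ∈ Iu u := by
  obtain ⟨n, hn⟩ := h
  exact ⟨n, by rwa [abs_abs]⟩

lemma Iu.sub {u y z : E} (hu : 0 ≤ u) (h : y ∈ Iu u) (h' : z ∈ Iu u) : y - z ∈ Iu u := by
  have := Iu.add h (Iu.smul hu (-1) h')
  rwa [neg_one_smul, ← sub_eq_add_neg] at this

lemma J_sub' {u : E} (hu : 0 ≤ u) {φ : E → ℝ≥0∞} (h : φ ∈ Ku E u) {y z : E}
    (hy : y ∈ Iu u) (hz : z ∈ Iu u) : J φ (y - z) = J φ y - J φ z := by
  rw [sub_eq_add_neg, ← neg_one_smul ℝ z, J_add hu h hy (Iu.smul hu _ hz), J_smul hu h _ hz]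
  ring

lemma J_mono {u : E} (hu : 0 ≤ u) {φ : E → ℝ≥0∞} (h : φ ∈ Ku E u) {y z : E}
    (hy : y ∈ Iu u) (hz : z ∈ Iu u) (hyz : y ≤ z) : J φ y ≤ J φ z := by
  have h1 := J_sub' hu h hz hy
  rw [J_nonneg_eq h (sub_nonneg.mpr hyz)] at h1
  have := ENNReal.toReal_nonneg (a := φ (z - y))
  linarith

/-- order is determined by the functionals in `K_u(E)` -/
lemma le_of_J_le {u : E} (hu : 0 ≤ u) {y z : E} (hy : y ∈ Iu u) (hz : z ∈ Iu u)
    (h : ∀ φ ∈ Ku E u, J φ y ≤ J φ z) : y ≤ z := by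
  by_contra hcon
  have h1 : ¬ (y - z) ≤ 0 := fun h' => hcon (sub_nonpos.mp h')
  obtain ⟨φ, hφ, hpos⟩ := exists_pos_of_not_le hu h1 (Iu.sub hu hy hz)
  rw [J_sub' hu hφ hy hz] at hpos
  linarith [h φ hφ]

/-- Kakutani's representation theorem in the form used here. -/
theorem kakutani [CompactSpace K] [T2Space K] [CompleteSpace E] {u : E} (hu : 0 ≤ u)
    (h : K ≃ₜ Ku E u) :
    ∃ Φ : C(K, ℝ) → E, (∀ f g, Φ (f + g) = Φ f + Φ g) ∧ (∀ (r : ℝ) f, Φ (r • f) = r • Φ f) ∧
      (∀ f g, f ≤ g ↔ Φ f ≤ Φ g) ∧ (∀ f, Φ |f| = |Φ f|) ∧ Φ 1 = u ∧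
      (∀ f, Φ f ∈ Iu u) ∧ (∀ y ∈ Iu u, ∃ f, Φ f = y) := by
  classical
  let ev : K → E → ℝ≥0∞ := fun x => (h x : E → ℝ≥0∞)
  have hev : Continuous ev := continuous_subtype_val.comp h.continuous
  have hm : ∀ x, ev x ∈ Ku E u := fun x => (h x).2
  let T : Iu u → C(K, ℝ) := fun y => ⟨fun x => J (ev x) y, continuous_J hu ev hev hm y.2⟩
  have hT : ∀ y x, T y x = J (ev x) y := fun y x => rfl
  have hJle : ∀ y z : Iu u, (∀ x, T y x ≤ T z x) → (y:E) ≤ z := by
    intro y z hyz
    apply le_of_J_le hu y.2 z.2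
    intro φ hφ
    have := hyz (h.symm ⟨φ, hφ⟩)
    simpa [hT, ev] using this
  -- norm estimate
  have hnorm : ∀ (y : E) (hy : y ∈ Iu u) (r : ℝ), (∀ x, |T ⟨y, hy⟩ x| ≤ r) → |y| ≤ r • u := by
    intro y hy r hr
    refine hJle ⟨|y|, Iu.abs hy⟩ ⟨r • u, Iu.smul hu r (Iu.u_mem hu)⟩ ?_
    intro x
    have h1 := hr x
    rw [hT] at h1
    rw [hT, hT]
    simp only
    rw [J_abs hu (hm x) hy, J_smul hu (hm x) r (Iu.u_mem hu), J_one hu (hm x), mul_one]
    exact h1
  have hTinj : Function.Injective T := by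
    intro y z hyz
    apply Subtype.ext
    exact le_antisymm (hJle y z (fun x => by rw [hyz])) (hJle z y (fun x => by rw [hyz]))
  -- range is a sublattice
  have hadd : ∀ y z : Iu u, T ⟨y + z, Iu.add y.2 z.2⟩ = T y + T z := by
    intro y z; ext x; simp [hT, J_add hu (hm x) y.2 z.2]
  have hsmul : ∀ (r : ℝ) (y : Iu u), T ⟨r • (y:E), Iu.smul hu r y.2⟩ = r • T y := by
    intro r y; ext x; simp [hT, J_smul hu (hm x) r y.2]
  have habs : ∀ (y : Iu u), T ⟨|(y:E)|, Iu.abs y.2⟩ = |T y| := by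
    intro y; ext x; simp [hT, J_abs hu (hm x) y.2]
  have hone : T ⟨u, Iu.u_mem hu⟩ = 1 := by
    ext x; simp [hT, J_one hu (hm x)]
  have radd : ∀ f ∈ range T, ∀ g ∈ range T, f + g ∈ range T := by
    rintro _ ⟨y, rfl⟩ _ ⟨z, rfl⟩
    exact ⟨_, hadd y z⟩
  have rsmul : ∀ (r : ℝ), ∀ f ∈ range T, r • f ∈ range T := by
    rintro r _ ⟨y, rfl⟩
    exact ⟨_, hsmul r y⟩
  have rabs : ∀ f ∈ range T, |f| ∈ range T := by
    rintro _ ⟨y, rfl⟩
    exact ⟨_, habs y⟩
  have hclosed : IsClosed (range T) := by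
    rw [← isSeqClosed_iff_isClosed]
    intro s f hs hsf
    choose y hy using hs
    have hC : CauchySeq s := hsf.cauchySeq
    -- the sequence y is Cauchy in E
    have hbd : ∀ n m, |((y n : E) - y m)| ≤ dist (s n) (s m) • u := by
      intro n m
      apply hnorm _ (Iu.sub hu (y n).2 (y m).2)
      intro x
      rw [hT]
      simp only
      rw [J_sub' hu (hm x) (y n).2 (y m).2]
      have e1 : J (ev x) (y n) = s n x := by rw [← hy n, hT]
      have e2 : J (ev x) (y m) = s m x := by rw [← hy m, hT]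
      rw [e1, e2, ← Real.dist_eq]
      exact ContinuousMap.dist_apply_le_dist x
    have hCE : CauchySeq (fun n => (y n : E)) := by
      rw [Metric.cauchySeq_iff] at hC ⊢
      intro ε hε
      obtain ⟨N, hN⟩ := hC (ε / (‖u‖ + 1)) (by positivity)
      refine ⟨N, fun m hm' n hn => ?_⟩
      have h1 := hbd m n
      have h2 : ‖((y m : E) - y n)‖ ≤ ‖dist (s m) (s n) • u‖ := by
        apply norm_le_norm_of_abs_le_abs
        rw [abs_of_nonneg (smul_nonneg dist_nonneg hu)]
        exact h1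
      rw [dist_eq_norm]
      refine h2.trans_lt ?_
      rw [norm_smul, Real.norm_of_nonneg dist_nonneg]
      have h3 := hN m hm' n hn
      calc dist (s m) (s n) * ‖u‖ ≤ (ε / (‖u‖ + 1)) * ‖u‖ := by gcongr
        _ < (ε / (‖u‖ + 1)) * (‖u‖ + 1) := by
            apply mul_lt_mul_of_pos_left (by linarith) (by positivity)
        _ = ε := by field_simp
    obtain ⟨z, hz⟩ := cauchySeq_tendsto_of_complete hCE
    have hlim : ∀ n, |((y n : E) - z)| ≤ dist (s n) f • u := by
      intro n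
      have t1 : Tendsto (fun m => |((y n : E) - y m)|) atTop (𝓝 |((y n : E) - z)|) := by
        have hcont : Continuous (fun w : E => |w|) := by
          unfold abs
          exact continuous_id.sup continuous_neg
        exact (hcont.tendsto _).comp (tendsto_const_nhds.sub hz)
      have t2 : Tendsto (fun m => dist (s n) (s m) • u) atTop (𝓝 (dist (s n) f • u)) :=
        (tendsto_const_nhds.dist hsf).smul_const u
      exact le_of_tendsto_of_tendsto' t1 t2 (fun m => hbd n m)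
    have hzI : z ∈ Iu u := by
      have h1 : (y 0 : E) - z ∈ Iu u := by
        obtain ⟨k, hk⟩ := exists_nat_ge (dist (s 0) f)
        refine ⟨k, (hlim 0).trans ?_⟩
        rw [← Nat.cast_smul_eq_nsmul ℝ]
        exact smul_le_smul_of_nonneg_right hk hu
      have := Iu.sub hu (y 0).2 h1
      rwa [sub_sub_cancel] at this
    refine ⟨⟨z, hzI⟩, ?_⟩
    ext x
    have h1 : Tendsto (fun n => s n x) atTop (𝓝 (f x)) :=
      ((continuous_eval_const x).tendsto f).comp hsf
    have h2 : Tendsto (fun n => s n x) atTop (𝓝 (T ⟨z, hzI⟩ x)) := by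
      rw [tendsto_iff_dist_tendsto_zero]
      have h3 : Tendsto (fun n => dist (s n) f) atTop (𝓝 0) := by
        rw [← tendsto_iff_dist_tendsto_zero]; exact hsf
      refine squeeze_zero (fun _ => dist_nonneg) (fun n => ?_) h3
      rw [Real.dist_eq, ← hy n, hT, hT]
      simp only
      rw [← J_sub' hu (hm x) (y n).2 hzI, ← J_abs hu (hm x) (Iu.sub hu (y n).2 hzI)]
      calc J (ev x) |((y n : E) - z)| ≤ J (ev x) (dist (s n) f • u) :=
            J_mono hu (hm x) (Iu.abs (Iu.sub hu (y n).2 hzI)) (Iu.smul hu _ (Iu.u_mem hu)) (hlim n)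
        _ = dist (s n) f := by rw [J_smul hu (hm x) _ (Iu.u_mem hu), J_one hu (hm x), mul_one]
        _ = dist (T (y n)) f := by rw [hy n]
    exact tendsto_nhds_unique h2 h1
  have hsurj : Function.Surjective T := by
    have hsup : ∀ f ∈ range T, ∀ g ∈ range T, f ⊔ g ∈ range T := by
      intro f hf g hg
      have e : f ⊔ g = (2⁻¹ : ℝ) • (f + g + |f + (-1 : ℝ) • g|) := by
        ext x
        simp only [ContinuousMap.sup_apply, ContinuousMap.smul_apply, ContinuousMap.add_apply,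
          ContinuousMap.abs_apply, smul_eq_mul]
        rw [max_def]
        split_ifs with hle
        · rw [abs_of_nonpos (by linarith)]; ring
        · rw [abs_of_nonneg (by linarith)]; ring
      rw [e]
      exact rsmul _ _ (radd _ (radd _ hf _ hg) _ (rabs _ (radd _ hf _ (rsmul _ _ hg))))
    have hinf : ∀ f ∈ range T, ∀ g ∈ range T, f ⊓ g ∈ range T := by
      intro f hf g hg
      have e : f ⊓ g = (-1 : ℝ) • (((-1 : ℝ) • f) ⊔ ((-1 : ℝ) • g)) := by
        ext x
        simp only [ContinuousMap.sup_apply, ContinuousMap.inf_apply, ContinuousMap.smul_apply, smul_eq_mul]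
        rw [max_def, min_def]
        split_ifs <;> linarith
      rw [e]
      exact rsmul _ _ (hsup _ (rsmul _ _ hf) _ (rsmul _ _ hg))
    have hsep : (range T).SeparatesPointsStrongly := by
      intro v x y
      by_cases hxy : x = y
      · subst hxy
        refine ⟨v x • T ⟨u, Iu.u_mem hu⟩, rsmul _ _ ⟨_, rfl⟩, ?_, ?_⟩ <;> simp [hone]
      · have hsepE : ∃ a : Iu u, T a x ≠ T a y := by
          by_contra hcon
          push Not at hcon
          apply hxy
          apply h.injective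
          apply Subtype.ext
          funext a
          change ev x a = ev y a
          -- reduce to nonnegative a
          have hpos : ∀ a : E, 0 ≤ a → ev x a = ev y a := by
            intro a ha
            have hfin : ∀ n : ℕ, ev x a ⊓ n = ev y a ⊓ n := by
              intro n
              have hnu : 0 ≤ n • u := nsmul_nonneg hu n
              have h1 : a ⊓ (n • u) ∈ Iu u := ⟨n, by
                rw [abs_of_nonneg (le_inf ha hnu)]; exact inf_le_right⟩
              have h2 := hcon ⟨_, h1⟩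
              rw [hT, hT, J_nonneg_eq (hm x) (le_inf ha hnu), J_nonneg_eq (hm y) (le_inf ha hnu),
                ENNReal.toReal_eq_toReal_iff' (Iu.ne_top hu (hm x) (le_inf ha hnu) h1)
                  (Iu.ne_top hu (hm y) (le_inf ha hnu) h1),
                (hm x).2.2.1 _ _ ha hnu, (hm y).2.2.1 _ _ ha hnu] at h2
              have h3 : ∀ φ ∈ Ku E u, φ (n • u) = n := by
                intro φ hφ
                rw [← Nat.cast_smul_eq_nsmul ℝ, hφ.2.2.2, abs_of_nonneg hu, hφ.1, mul_one,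
                  abs_of_nonneg (Nat.cast_nonneg _)]
                simp
              rwa [h3 _ (hm x), h3 _ (hm y)] at h2
            have hle : ∀ p q : ℝ≥0∞, (∀ n : ℕ, p ⊓ n = q ⊓ n) → p ≤ q := by
              intro p q hpq
              refine le_of_forall_lt fun c hc => ?_
              obtain ⟨n, hn⟩ := ENNReal.exists_nat_gt (ne_top_of_lt hc)
              have : c < p ⊓ n := lt_inf_iff.mpr ⟨hc, hn⟩
              rw [hpq n] at this
              exact (lt_inf_iff.mp this).1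
            exact le_antisymm (hle _ _ hfin) (hle _ _ fun n => (hfin n).symm)
          have h1 := (hm x).2.2.2 1 a
          have h2 := (hm y).2.2.2 1 a
          rw [one_smul] at h1 h2
          rw [h1, h2, hpos |a| (abs_nonneg a)]
        obtain ⟨a, ha⟩ := hsepE
        have hd : T a x - T a y ≠ 0 := sub_ne_zero.mpr ha
        refine ⟨((v x - v y) / (T a x - T a y)) • T a +
          (v x - (v x - v y) / (T a x - T a y) * T a x) • T ⟨u, Iu.u_mem hu⟩,
          radd _ (rsmul _ _ ⟨_, rfl⟩) _ (rsmul _ _ ⟨_, rfl⟩), ?_, ?_⟩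
        · simp [hone]
        · simp only [hone, ContinuousMap.add_apply, ContinuousMap.smul_apply, smul_eq_mul,
            ContinuousMap.one_apply, mul_one]
          field_simp
          ring
    have := ContinuousMap.sublattice_closure_eq_top (range T) ⟨_, ⟨⟨u, Iu.u_mem hu⟩, rfl⟩⟩
      (fun f hf g hg => hinf f hf g hg) (fun f hf g hg => hsup f hf g hg) hsep
    rw [hclosed.closure_eq] at this
    intro f
    have hf : f ∈ range T := by rw [this]; trivial
    exact hf
  let Te : Iu u ≃ C(K, ℝ) := Equiv.ofBijective T ⟨hTinj, hsurj⟩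
  have hTe : ∀ f, T (Te.symm f) = f := fun f => Te.apply_symm_apply f
  refine ⟨fun f => (Te.symm f : E), ?_, ?_, ?_, ?_, ?_, fun f => (Te.symm f).2, ?_⟩
  · intro f g
    show (Te.symm (f + g) : E) = Te.symm f + Te.symm g
    have : Te.symm (f + g) = ⟨_, Iu.add (Te.symm f).2 (Te.symm g).2⟩ := by
      apply hTinj
      rw [hTe, hadd, hTe, hTe]
    rw [this]
  · intro r f
    show (Te.symm (r • f) : E) = r • (Te.symm f : E)
    have : Te.symm (r • f) = ⟨_, Iu.smul hu r (Te.symm f).2⟩ := by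
      apply hTinj
      rw [hTe, hsmul, hTe]
    rw [this]
  · intro f g
    constructor
    · intro hfg
      apply hJle
      rw [hTe, hTe]
      exact hfg
    · intro hfg x
      have := J_mono hu (hm x) (Te.symm f).2 (Te.symm g).2 hfg
      rw [← hT, ← hT, hTe, hTe] at this
      exact this
  · intro f
    show (Te.symm |f| : E) = |(Te.symm f : E)|
    have : Te.symm |f| = ⟨_, Iu.abs (Te.symm f).2⟩ := by
      apply hTinj
      rw [hTe, habs, hTe]
    rw [this]
  · show (Te.symm 1 : E) = u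
    have : Te.symm 1 = ⟨u, Iu.u_mem hu⟩ := by
      apply hTinj
      rw [hTe, hone]
    rw [this]
  · intro y hy
    refine ⟨T ⟨y, hy⟩, ?_⟩
    show (Te.symm (T ⟨y, hy⟩) : E) = y
    rw [show Te.symm (T ⟨y, hy⟩) = ⟨y, hy⟩ from Te.symm_apply_apply _]

end Kakutani

section Measures

variable {K : Type w} [TopologicalSpace K] [CompactSpace K] [T2Space K] [MeasurableSpace K]
  [BorelSpace K]

/-- Riesz representation for positive functionals on `C(K)`. -/
lemma exists_measure (Λ : C(K, ℝ) →ₗ[ℝ] ℝ) (hΛ : ∀ f, 0 ≤ f → 0 ≤ Λ f) (h1 : Λ 1 = 1) :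
    ∃ ν : Measure K, IsProbabilityMeasure ν ∧ ν.Regular ∧ ∀ f : C(K, ℝ), ∫ x, f x ∂ν = Λ f := by
  let L : CompactlySupportedContinuousMap K ℝ →ₗ[ℝ] ℝ :=
    { toFun := fun f => Λ f.toContinuousMap
      map_add' := fun f g => by
        have : (f + g).toContinuousMap = f.toContinuousMap + g.toContinuousMap := by ext x; rfl
        rw [this, map_add]
      map_smul' := fun r f => by
        have : (r • f).toContinuousMap = r • f.toContinuousMap := by ext x; rfl
        rw [this, map_smul]; rfl }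
  let P : CompactlySupportedContinuousMap K ℝ →ₚ[ℝ] ℝ := PositiveLinearMap.mk₀ L (fun f hf => hΛ _ hf)
  have hint : ∀ f : C(K, ℝ), ∫ x, f x ∂(RealRMK.rieszMeasure P) = Λ f := by
    intro f
    have := RealRMK.integral_rieszMeasure P (CompactlySupportedContinuousMap.continuousMapEquiv f)
    exact this
  have hreg : (RealRMK.rieszMeasure P).Regular := inferInstance
  refine ⟨RealRMK.rieszMeasure P, ?_, hreg, hint⟩
  have hfin : RealRMK.rieszMeasure P univ < ∞ := isCompact_univ.measure_lt_top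
  have h2 := hint 1
  rw [h1] at h2
  simp only [ContinuousMap.one_apply, integral_const, smul_eq_mul, mul_one] at h2
  constructor
  rw [measureReal_def] at h2
  rw [← ENNReal.toReal_eq_one_iff]
  exact h2

omit [CompactSpace K] [T2Space K] [BorelSpace K] in
lemma determined (μ : PK K) (hμ : IsGδ ({μ} : Set (PK K))) :
    ∃ S : Set C(K, ℝ), S.Countable ∧
      ∀ ν : PK K, (∀ f ∈ S, ∫ x, f x ∂ν.1 = ∫ x, f x ∂μ.1) → ν = μ := by
  obtain ⟨T, hTo, hTc, hT⟩ := hμ
  have hI : ∀ t ∈ T, ∃ I : Finset C(K, ℝ), ∀ ν : PK K,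
      (∀ f ∈ I, ∫ x, f x ∂ν.1 = ∫ x, f x ∂μ.1) → ν ∈ t := by
    intro t ht
    obtain ⟨V, hV, hVt⟩ := isOpen_induced_iff.mp (hTo t ht)
    have hμt : μ ∈ t := by
      have : μ ∈ ⋂₀ T := by rw [← hT]; rfl
      exact this t ht
    rw [← hVt] at hμt
    obtain ⟨I, u, hu, hsub⟩ := isOpen_pi_iff.mp hV _ hμt
    refine ⟨I, fun ν hν => ?_⟩
    rw [← hVt]
    apply hsub
    intro f hf
    simp only
    rw [hν f hf]
    exact (hu f hf).2
  choose! I hI using hI
  refine ⟨⋃ t ∈ T, (I t : Set C(K, ℝ)), hTc.biUnion fun t _ => (I t).countable_toSet, ?_⟩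
  intro ν hν
  have : ν ∈ ⋂₀ T := by
    intro t ht
    apply hI t ht
    intro f hf
    exact hν f (mem_biUnion ht hf)
  rw [← hT] at this
  exact this

lemma integrable_C (μ : Measure K) [IsFiniteMeasure μ] (f : C(K, ℝ)) :
    Integrable (fun x => f x) μ := by
  obtain ⟨B, hB⟩ := isCompact_univ.exists_bound_of_continuousOn (f := f) f.continuous.continuousOn
  exact Integrable.of_bound f.continuous.aestronglyMeasurable B
    (Eventually.of_forall fun x => hB x (mem_univ x))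

lemma sandwich (μ : PK K) (S : Set C(K, ℝ))
    (hS : ∀ ν : PK K, (∀ f ∈ S, ∫ x, f x ∂ν.1 = ∫ x, f x ∂μ.1) → ν = μ) (f : C(K, ℝ)) {ε : ℝ}
    (hε : 0 < ε) : ∃ g ∈ Submodule.span ℝ (insert 1 S), f ≤ g ∧ ∫ x, g x ∂μ.1 < ∫ x, f x ∂μ.1 + ε := by
  have hprob : IsProbabilityMeasure μ.1 := μ.2.1
  by_contra hcon
  push Not at hcon
  set V := Submodule.span ℝ (insert 1 S) with hV
  have hfV : f ∉ V := by
    intro hf
    have := hcon f hf le_rfl
    linarith
  set c := ∫ x, f x ∂μ.1 + ε with hc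
  let L0 : C(K, ℝ) →ₗ[ℝ] ℝ :=
    { toFun := fun g => ∫ x, g x ∂μ.1
      map_add' := fun g h => by
        simp only [ContinuousMap.add_apply]
        exact integral_add (integrable_C _ g) (integrable_C _ h)
      map_smul' := fun r g => by
        simp only [ContinuousMap.smul_apply, smul_eq_mul, RingHom.id_apply]
        exact integral_const_mul r _ }
  have hL0 : ∀ g, L0 g = ∫ x, g x ∂μ.1 := fun g => rfl
  have hL0mono : ∀ g h : C(K, ℝ), g ≤ h → L0 g ≤ L0 h := by
    intro g h hgh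
    exact integral_mono (integrable_C _ g) (integrable_C _ h) hgh
  let P0 : C(K, ℝ) →ₗ.[ℝ] ℝ := ⟨V, L0.comp V.subtype⟩
  let P1 := P0.supSpanSingleton f c hfV
  let cone : PointedCone ℝ C(K, ℝ) :=
    { carrier := {g | 0 ≤ g}
      add_mem' := fun {a b} (ha : (0 : C(K, ℝ)) ≤ a) (hb : (0 : C(K, ℝ)) ≤ b) =>
        (show (0 : C(K, ℝ)) ≤ a + b from add_nonneg ha hb)
      zero_mem' := le_refl (0 : C(K, ℝ))
      smul_mem' := fun r g hg => by
        intro x
        exact mul_nonneg r.2 (hg x) }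
  have h1V : (1 : C(K, ℝ)) ∈ V := Submodule.subset_span (mem_insert _ _)
  have hcone : ∀ g : C(K, ℝ), g ∈ cone ↔ 0 ≤ g := fun g => Iff.rfl
  obtain ⟨Λ, hΛ1, hΛ2⟩ := riesz_extension cone P1 (by
    rintro ⟨x, hx⟩ hxpos
    obtain ⟨v, hv, w, hw, rfl⟩ := Submodule.mem_sup.mp hx
    obtain ⟨t, rfl⟩ := Submodule.mem_span_singleton.mp hw
    have e : P1 ⟨v + t • f, hx⟩ = L0 v + t * c :=
      LinearPMap.supSpanSingleton_apply_mk P0 f c hfV v hv t
    rw [e]
    have hx0 : (0 : C(K, ℝ)) ≤ v + t • f := hxpos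
    have hxx : ∀ x, 0 ≤ v x + t * f x := hx0
    rcases lt_trichotomy t 0 with ht | ht | ht
    · have h1 : f ≤ (-t)⁻¹ • v := by
        rw [ContinuousMap.le_def]
        intro x
        simp only [ContinuousMap.smul_apply, smul_eq_mul]
        rw [inv_mul_eq_div, le_div_iff₀ (by linarith)]
        linarith [hxx x]
      have h2 := hcon _ (V.smul_mem _ hv) h1
      have h3 : ∫ x, ((-t)⁻¹ • v) x ∂μ.1 = (-t)⁻¹ * L0 v := by
        rw [← hL0, map_smul, smul_eq_mul]
      rw [h3, inv_mul_eq_div, le_div_iff₀ (by linarith)] at h2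
      linarith
    · subst ht
      have h1 : (0 : C(K, ℝ)) ≤ v := by
        intro x
        have := hxx x
        simpa using this
      have h2 := hL0mono 0 v h1
      rw [map_zero] at h2
      linarith
    · have h1 : (-t⁻¹) • v ≤ f := by
        rw [ContinuousMap.le_def]
        intro x
        simp only [ContinuousMap.smul_apply, smul_eq_mul]
        have h4 := hxx x
        have h5 : t * ((-t⁻¹) * v x) = - v x := by field_simp
        have h6 : t * ((-t⁻¹) * v x) ≤ t * f x := by rw [h5]; linarith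
        exact le_of_mul_le_mul_left h6 ht
      have h2 := hL0mono _ _ h1
      rw [map_smul, smul_eq_mul] at h2
      have h3 : L0 f < c := by rw [hL0, hc]; linarith
      have h5 : t * ((-t⁻¹) * L0 v) = - L0 v := by field_simp
      have h6 : t * ((-t⁻¹) * L0 v) ≤ t * c := by
        apply mul_le_mul_of_nonneg_left (h2.trans h3.le) ht.le
      rw [h5] at h6
      linarith) (by
    intro y
    obtain ⟨B, hB⟩ := isCompact_univ.exists_bound_of_continuousOn (f := y) y.continuous.continuousOn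
    refine ⟨⟨B • (1 : C(K, ℝ)), Submodule.mem_sup_left (V.smul_mem _ h1V)⟩, ?_⟩
    rw [hcone, ContinuousMap.le_def]
    intro x
    have := hB x (mem_univ x)
    simp only [ContinuousMap.add_apply, ContinuousMap.smul_apply, ContinuousMap.one_apply,
      smul_eq_mul, mul_one, ContinuousMap.zero_apply]
    rw [Real.norm_eq_abs] at this
    linarith [neg_abs_le (y x)])
  have hΛV : ∀ g ∈ V, Λ g = L0 g := by
    intro g hg
    have := hΛ1 ⟨g, Submodule.mem_sup_left hg⟩
    rw [this]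
    exact LinearPMap.supSpanSingleton_apply_mk_of_mem P0 c hfV hg
  have hΛf : Λ f = c := by
    have := hΛ1 ⟨f, Submodule.mem_sup_right (Submodule.mem_span_singleton_self f)⟩
    rw [this]
    exact LinearPMap.supSpanSingleton_apply_self P0 c hfV
  have hL1 : L0 1 = 1 := by rw [hL0]; simp
  obtain ⟨ν, hν1, hν2, hν3⟩ := exists_measure Λ (fun g hg => hΛ2 g hg) (by rw [hΛV 1 h1V, hL1])
  have heq := hS ⟨ν, hν1, hν2⟩ (by
    intro g hg
    rw [hν3, hΛV g (Submodule.subset_span (mem_insert_of_mem _ hg)), hL0])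
  have h7 : ∫ x, f x ∂ν = ∫ x, f x ∂μ.1 := by rw [← heq]
  rw [hν3, hΛf, hc] at h7
  linarith

/-- countable version of the sandwich -/
lemma sandwich_countable (μ : PK K) (S : Set C(K, ℝ)) (hSc : S.Countable)
    (hS : ∀ ν : PK K, (∀ f ∈ S, ∫ x, f x ∂ν.1 = ∫ x, f x ∂μ.1) → ν = μ) :
    ∃ D : Set C(K, ℝ), D.Countable ∧ ∀ (f : C(K, ℝ)) (ε : ℝ), 0 < ε →
      ∃ g ∈ D, f ≤ g ∧ ∫ x, g x ∂μ.1 < ∫ x, f x ∂μ.1 + ε := by
  have hprob : IsProbabilityMeasure μ.1 := μ.2.1
  have hsep : TopologicalSpace.IsSeparable (Submodule.span ℝ (insert 1 S) : Set C(K, ℝ)) :=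
    (hSc.insert 1).isSeparable.span
  obtain ⟨c, hc, hcd⟩ := hsep
  refine ⟨(fun p : C(K, ℝ) × ℚ => p.1 + (p.2 : ℝ) • (1 : C(K, ℝ))) '' (c ×ˢ univ),
    (hc.prod countable_univ).image _, ?_⟩
  intro f ε hε
  obtain ⟨g, hg, hfg, hgε⟩ := sandwich μ S hS f (half_pos hε)
  obtain ⟨d, hd, hdg⟩ := Metric.mem_closure_iff.mp (hcd hg) (ε / 8) (by positivity)
  obtain ⟨q, hq1, hq2⟩ := exists_rat_btwn (show ε / 8 < ε / 4 by linarith)
  have hdist : ∀ x, |g x - d x| < ε / 8 := by
    intro x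
    rw [← Real.dist_eq]
    exact (ContinuousMap.dist_apply_le_dist x).trans_lt hdg
  refine ⟨d + (q : ℝ) • (1 : C(K, ℝ)), ⟨(d, q), ⟨hd, mem_univ _⟩, rfl⟩, ?_, ?_⟩
  · rw [ContinuousMap.le_def]
    intro x
    have h1 : f x ≤ g x := hfg x
    have h2 := (abs_lt.mp (hdist x))
    simp only [ContinuousMap.add_apply, ContinuousMap.smul_apply, ContinuousMap.one_apply,
      smul_eq_mul, mul_one]
    linarith [h2.1, h2.2]
  · have h1 : ∫ x, (d + (q : ℝ) • (1 : C(K, ℝ))) x ∂μ.1 ≤ ∫ x, (g x + 3 * ε / 8) ∂μ.1 := by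
      apply integral_mono (integrable_C _ _) ((integrable_C _ g).add (integrable_const _))
      intro x
      have h2 := (abs_lt.mp (hdist x))
      show (d + (q : ℝ) • (1 : C(K, ℝ))) x ≤ g x + 3 * ε / 8
      simp only [ContinuousMap.add_apply, ContinuousMap.smul_apply, ContinuousMap.one_apply,
        smul_eq_mul, mul_one]
      linarith [h2.1, h2.2]
    rw [integral_add (integrable_C _ g) (integrable_const _)] at h1
    rw [integral_const, smul_eq_mul, show μ.1.real univ = 1 from by simp, one_mul] at h1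
    linarith

end Measures

end Pool.Agent.H59.Sick
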